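import Pool.Agent.H32.RK.TargetsA

/-! (DUB) the dual basis. -/

set_option autoImplicit false

open Finset NumberField Pool.Agent.H32.RQ Pool.Agent.H32.RK

namespace Pool.Agent.H20.RK

section

variable {K : Type} [Field K] [NumberField K]

theorem tr_sum {ι : Type} [Fintype ι] (ω : Module.Basis ι ℤ (𝓞 K)) (a : K) (b : 𝓞 K) :
    Algebra.trace ℚ K (a * b) = ∑ l, (ω.repr b l : ℚ) * Algebra.trace ℚ K (a * ω l) := by
  have h1 : (b : K) = ∑ l, (ω.repr b l : ℚ) • (ω l : K) := by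
    conv_lhs => rw [← ω.sum_repr b]
    change algebraMap (𝓞 K) K (∑ l, ω.repr b l • ω l) = _
    rw [map_sum]
    apply Finset.sum_congr rfl
    intro l _
    rw [map_zsmul, zsmul_eq_mul, Algebra.smul_def]
    congr 1
    simp
  rw [h1, Finset.mul_sum, map_sum]
  apply Finset.sum_congr rfl
  intro l _
  rw [mul_smul_comm, map_smul, smul_eq_mul]

theorem tr_inj {ι : Type} [Fintype ι] (ω : Module.Basis ι ℤ (𝓞 K)) (a : K)
    (h : ∀ l, Algebra.trace ℚ K (a * ω l) = 0) : a = 0 := by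
  by_contra ha
  have h1 : ∀ b : 𝓞 K, Algebra.trace ℚ K (a * b) = 0 := by
    intro b
    rw [tr_sum ω]
    exact Finset.sum_eq_zero fun l _ => by rw [h l, mul_zero]
  obtain ⟨y, hy, hint⟩ := IsAlgebraic.exists_integral_multiple (R := ℤ)
    (show IsAlgebraic ℤ a⁻¹ from
      (IsFractionRing.isAlgebraic_iff ℤ ℚ K).2 (Algebra.IsAlgebraic.isAlgebraic a⁻¹))
  have h2 : Algebra.trace ℚ K (a * (y • a⁻¹)) = 0 := h1 ⟨y • a⁻¹, hint⟩
  have h3 : a * (y • a⁻¹) = algebraMap ℚ K (y : ℚ) := by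
    rw [mul_smul_comm, mul_inv_cancel₀ ha, zsmul_eq_mul, mul_one]
    simp
  rw [h3, Algebra.trace_algebraMap, nsmul_eq_mul] at h2
  rcases mul_eq_zero.1 h2 with h4 | h4
  · have h5 : Module.finrank ℚ K = 0 := by exact_mod_cast h4
    have h6 : 0 < Module.finrank ℚ K := Module.finrank_pos
    omega
  · exact hy (by exact_mod_cast h4)

end

theorem pf_DUB (K : Type) [Field K] [NumberField K] : T_DUB K := by
  intro ι _ ω
  let Φ : K →ₗ[ℚ] (ι → ℚ) := LinearMap.pi fun l =>
    (Algebra.trace ℚ K).comp (LinearMap.mulRight ℚ (ω l : K))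
  have hΦ : ∀ a l, Φ a l = Algebra.trace ℚ K (a * ω l) := fun a l => rfl
  have hinj : Function.Injective Φ := by
    rw [injective_iff_map_eq_zero]
    intro a ha
    apply tr_inj ω
    intro l
    rw [← hΦ, ha]
    rfl
  have hrank : Module.finrank ℚ K = Module.finrank ℚ (ι → ℚ) := by
    rw [Module.finrank_fintype_fun_eq_card, ← RingOfIntegers.rank K,
      Module.finrank_eq_card_basis ω]
  have hsurj := (LinearMap.injective_iff_surjective_of_finrank_eq_finrank hrank).1 hinj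
  refine ⟨?_, ?_, ?_⟩
  · intro t
    obtain ⟨a, ha⟩ := hsurj t
    exact ⟨a, fun l => by rw [← hΦ, ha]⟩
  · intro a b hab
    apply hinj
    funext l
    rw [hΦ, hΦ, hab]
  · intro a ha b
    choose n hn using ha
    refine ⟨∑ l, ω.repr b l * n l, ?_⟩
    rw [tr_sum ω]
    push_cast
    exact Finset.sum_congr rfl fun l _ => by rw [hn]

end Pool.Agent.H20.RK
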