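import Pool.Agent.H32.RK.TargetsA

/-! (LAT) upper bound for the number of lattice points. -/

set_option autoImplicit false

open Finset NumberField Pool.Agent.H32.RQ Pool.Agent.H32.RK

namespace Pool.Agent.H20.RK

theorem pf_LAT (K : Type) [Field K] [NumberField K] (hPCK : T_PCK K) (hNRM : T_NRM K) :
    T_LAT K := by
  obtain ⟨C, hC, hP⟩ := hPCK
  obtain ⟨-, -, -, hpX, hpm, hmono, hpos⟩ := hNRM
  have hd : 0 < dg K := Module.finrank_pos
  refine ⟨2 * C ^ dg K, ?_, ?_⟩
  · have h1 : 1 ≤ C ^ dg K := one_le_pow₀ hC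
    linarith
  · intro T D ν hν hD hT
    have hPD := hpos D hD
    obtain ⟨δ, hδ0, hδ1, hδ2, hδ3⟩ : ∃ δ : ℝ, 0 < δ ∧ δ ≤ 1 ∧ δ ^ dg K * pm D < ν ∧
        (1 / δ) ^ dg K ≤ 2 * (1 + pm D / ν) := by
      rcases lt_or_ge (pm D) ν with h | h
      · refine ⟨1, one_pos, le_rfl, by rw [one_pow, one_mul]; exact h, ?_⟩
        rw [div_one, one_pow]
        have : 0 ≤ pm D / ν := by positivity
        linarith
      · have hq : 0 < ν / (2 * pm D) := by positivity
        refine ⟨(ν / (2 * pm D)) ^ ((1 : ℝ) / dg K), Real.rpow_pos_of_pos hq _, ?_, ?_, ?_⟩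
        · apply Real.rpow_le_one hq.le
          · rw [div_le_one (by positivity)]
            linarith
          · positivity
        · rw [← Real.rpow_natCast, ← Real.rpow_mul hq.le]
          have h1 : (1 : ℝ) / dg K * (dg K : ℝ) = 1 := by
            have : (dg K : ℝ) ≠ 0 := by exact_mod_cast hd.ne'
            field_simp
          rw [h1, Real.rpow_one]
          have h2 : ν / (2 * pm D) * pm D = ν / 2 := by field_simp
          rw [h2]
          linarith
        · rw [one_div, inv_pow, ← Real.rpow_natCast, ← Real.rpow_mul hq.le]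
          have h1 : (1 : ℝ) / dg K * (dg K : ℝ) = 1 := by
            have : (dg K : ℝ) ≠ 0 := by exact_mod_cast hd.ne'
            field_simp
          rw [h1, Real.rpow_one, inv_div]
          have h2 : 2 * pm D / ν = 2 * (pm D / ν) := by ring
          rw [h2]
          linarith
    have h1 := hP T D δ hδ0 hδ1 hD (by
      intro t ht t' ht' hne
      obtain ⟨g1, g2⟩ := hT t ht t' ht' hne
      refine ⟨g1, ?_⟩
      by_contra hcon
      push Not at hcon
      have g3 : nm (t - t') ≤ pm (fun w => δ * D w) :=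
        hmono _ _ (fun w => apply_nonneg w _) fun w => (hcon w).le
      rw [hpm, hpX] at g3
      linarith)
    refine h1.trans ?_
    have h2 : (C / δ) ^ dg K = C ^ dg K * (1 / δ) ^ dg K := by
      rw [← mul_pow]
      congr 1
      ring
    rw [h2]
    have h3 : 0 ≤ C ^ dg K := by positivity
    calc C ^ dg K * (1 / δ) ^ dg K ≤ C ^ dg K * (2 * (1 + pm D / ν)) :=
          mul_le_mul_of_nonneg_left hδ3 h3
      _ = 2 * C ^ dg K * (1 + pm D / ν) := by ring

end Pool.Agent.H20.RK
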