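import Pool.Agent.H32.RK.TargetsA

/-! (LOW) lower bound for the number of integers. -/

set_option autoImplicit false

open Finset NumberField Pool.Agent.H32.RQ Pool.Agent.H32.RK

namespace Pool.Agent.H20.RK

theorem el_inj {K : Type} [Field K] [NumberField K] {ι : Type} [Fintype ι]
    (ω : Module.Basis ι ℤ (𝓞 K)) : Function.Injective (el ω) := by
  intro v w h
  have h1 : ∀ v : ι → ℤ, (fun l => ω.repr (el ω v) l) = v := by
    intro v
    unfold el
    funext l
    have := ω.repr_sum_self v
    exact congrFun this l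
  rw [← h1 v, ← h1 w, h]

theorem pf_LOW (K : Type) [Field K] [NumberField K] (hCMP : T_CMP K) : T_LOW K := by
  classical
  obtain ⟨hc, C, hC, -, h2⟩ := hCMP _ (RingOfIntegers.basis K)
  have hC0 : 0 < C := by linarith
  refine ⟨(1 / C) ^ dg K, by positivity, ?_⟩
  intro X hX
  obtain ⟨n, hn⟩ : ∃ n : ℕ, n = ⌊X / C⌋₊ := ⟨_, rfl⟩
  have hXC : 0 ≤ X / C := by positivity
  have hn1 : (n : ℝ) ≤ X / C := by rw [hn]; exact Nat.floor_le hXC
  have hn2 : X / C ≤ 2 * n + 1 := by
    have h3 := Nat.lt_floor_add_one (X / C)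
    rw [← hn] at h3
    have h4 : (0 : ℝ) ≤ n := Nat.cast_nonneg n
    linarith
  refine ⟨(bo _ n).image (el (RingOfIntegers.basis K)), ?_, ?_⟩
  · intro a ha w
    rw [Finset.mem_image] at ha
    obtain ⟨v, hv, rfl⟩ := ha
    have h3 := h2 v (X / C) (by
      intro l
      unfold bo at hv
      rw [Fintype.mem_piFinset] at hv
      have h4 := Finset.mem_Icc.1 (hv l)
      refine le_trans ?_ hn1
      rw [abs_le]
      constructor
      · have := h4.1
        have h5 : ((-(n : ℤ) : ℤ) : ℝ) ≤ (v l : ℝ) := by exact_mod_cast this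
        push_cast at h5
        exact h5
      · exact_mod_cast h4.2) w
    have h4 : C * (X / C) = X := by field_simp
    rwa [h4] at h3
  · rw [Finset.card_image_of_injective _ (el_inj _)]
    have h3 : (bo (Module.Free.ChooseBasisIndex ℤ (𝓞 K)) n).card = (2 * n + 1) ^ dg K := by
      unfold bo
      rw [Fintype.card_piFinset]
      simp only [Int.card_Icc, Finset.prod_const, Finset.card_univ]
      rw [hc]
      congr 1
      omega
    rw [h3, ← mul_pow]
    push_cast
    apply pow_le_pow_left₀ (by positivity)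
    have h4 : 1 / C * X = X / C := by ring
    rw [h4]
    exact hn2

end Pool.Agent.H20.RK
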