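import Pool.Agent.H32.RK.TargetsA

/-! (PCK) packing. -/

set_option autoImplicit false

open Finset NumberField Pool.Agent.H32.RQ Pool.Agent.H32.RK

namespace Pool.Agent.H20.RK

theorem floor_mem {y : ℝ} {N : ℕ} (h : |y| ≤ N) : ⌊y⌋ ∈ Finset.Icc (-(N : ℤ)) N := by
  rw [Finset.mem_Icc]
  obtain ⟨h1, h2⟩ := abs_le.1 h
  constructor
  · rw [Int.le_floor]
    push_cast
    exact h1
  · have h3 : (⌊y⌋ : ℝ) ≤ (N : ℤ) := (Int.floor_le y).trans (by push_cast; exact h2)
    exact_mod_cast h3

theorem pf_PCK (K : Type) [Field K] [NumberField K] : T_PCK K := by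
  classical
  refine ⟨7, by norm_num, ?_⟩
  intro T D δ hδ hδ1 hD hT
  have h7 : 1 ≤ (7 / δ) ^ dg K := by
    apply one_le_pow₀
    rw [one_le_div hδ]
    linarith
  rcases T.eq_empty_or_nonempty with rfl | ⟨t0, ht0⟩
  · rw [Finset.card_empty]
    push_cast
    linarith
  obtain ⟨N, hN⟩ : ∃ N : ℕ, N = ⌈2 / δ⌉₊ := ⟨_, rfl⟩
  have hN1 : 2 / δ ≤ N := by rw [hN]; exact Nat.le_ceil _
  have hN2 : (N : ℝ) < 2 / δ + 1 := by rw [hN]; exact Nat.ceil_lt_add_one (by positivity)
  let f : K → (InfinitePlace K → ℤ × ℤ) := fun t w =>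
    (⌊2 * (w.embedding (t - t0)).re / (δ * D w)⌋,
      if w.IsReal then 0 else ⌊2 * (w.embedding (t - t0)).im / (δ * D w)⌋)
  let B : Finset (InfinitePlace K → ℤ × ℤ) := Fintype.piFinset fun w =>
    (Finset.Icc (-(N : ℤ)) N) ×ˢ (if w.IsReal then {0} else Finset.Icc (-(N : ℤ)) N)
  have hw0 : ∀ t ∈ T, ∀ w : InfinitePlace K, w (t - t0) ≤ D w := by
    intro t ht w
    by_cases h : t = t0
    · rw [h, sub_self, map_zero]
      exact (hD w).le
    · exact (hT t ht t0 ht0 h).1 w
  have hmaps : ∀ t ∈ T, f t ∈ B := by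
    intro t ht
    rw [Fintype.mem_piFinset]
    intro w
    have hpos : 0 < δ * D w := mul_pos hδ (hD w)
    have hbd : ∀ r : ℝ, |r| ≤ D w → |2 * r / (δ * D w)| ≤ N := by
      intro r hr
      refine le_trans ?_ hN1
      rw [abs_div, abs_of_pos hpos, abs_mul, abs_of_pos (by norm_num : (0 : ℝ) < 2),
        div_le_div_iff₀ hpos hδ]
      nlinarith [hD w]
    have hn : ‖w.embedding (t - t0)‖ ≤ D w := by
      rw [InfinitePlace.norm_embedding_eq]
      exact hw0 t ht w
    rw [Finset.mem_product]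
    refine ⟨floor_mem (hbd _ ((Complex.abs_re_le_norm _).trans hn)), ?_⟩
    by_cases hr : w.IsReal
    · simp only [f, hr, if_true, Finset.mem_singleton]
    · simp only [f, hr, if_false]
      exact floor_mem (hbd _ ((Complex.abs_im_le_norm _).trans hn))
  have hinj : Set.InjOn f (T : Set K) := by
    intro t ht t' ht' hft
    by_contra hne
    obtain ⟨-, w, hw⟩ := hT t ht t' ht' hne
    have hpos : 0 < δ * D w := mul_pos hδ (hD w)
    have hfw := congrFun hft w
    have key : ∀ r r' : ℝ, ⌊2 * r / (δ * D w)⌋ = ⌊2 * r' / (δ * D w)⌋ →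
        |r - r'| < δ * D w / 2 := by
      intro r r' h
      have h1 := Int.abs_sub_lt_one_of_floor_eq_floor h
      have h2 : 2 * r / (δ * D w) - 2 * r' / (δ * D w) = 2 * (r - r') / (δ * D w) := by ring
      rw [h2, abs_div, abs_of_pos hpos, div_lt_one hpos, abs_mul,
        abs_of_pos (by norm_num : (0 : ℝ) < 2)] at h1
      linarith
    have hsub : w.embedding (t - t') = w.embedding (t - t0) - w.embedding (t' - t0) := by
      rw [← map_sub]
      congr 1
      ring
    have hre : |(w.embedding (t - t')).re| < δ * D w / 2 := by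
      rw [hsub, Complex.sub_re]
      exact key _ _ (congrArg Prod.fst hfw)
    have him : |(w.embedding (t - t')).im| < δ * D w / 2 := by
      by_cases hr : w.IsReal
      · have h1 : w.embedding (t - t') = ((w.embedding_of_isReal hr (t - t') : ℝ) : ℂ) :=
          (InfinitePlace.embedding_of_isReal_apply hr _).symm
        rw [h1, Complex.ofReal_im, abs_zero]
        positivity
      · have h1 := congrArg Prod.snd hfw
        simp only [f, hr, if_false] at h1
        rw [hsub, Complex.sub_im]
        exact key _ _ h1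
    have h1 := Complex.norm_le_abs_re_add_abs_im (w.embedding (t - t'))
    rw [InfinitePlace.norm_embedding_eq] at h1
    linarith
  have hcard := Finset.card_le_card_of_injOn f hmaps hinj
  have hB : B.card = (2 * N + 1) ^ dg K := by
    have h1 : B.card = ∏ w : InfinitePlace K, (2 * N + 1) ^ w.mult := by
      rw [Fintype.card_piFinset]
      apply Finset.prod_congr rfl
      intro w _
      rw [Finset.card_product, Int.card_Icc]
      have h2 : ((N : ℤ) + 1 - -(N : ℤ)).toNat = 2 * N + 1 := by omega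
      rw [h2]
      unfold InfinitePlace.mult
      by_cases hr : w.IsReal
      · rw [if_pos hr, if_pos hr, Finset.card_singleton, mul_one, pow_one]
      · rw [if_neg hr, if_neg hr, Int.card_Icc, h2, pow_two]
    rw [h1, Finset.prod_pow_eq_pow_sum, InfinitePlace.sum_mult_eq]
  rw [hB] at hcard
  have h1 : (T.card : ℝ) ≤ (2 * N + 1) ^ dg K := by exact_mod_cast hcard
  refine h1.trans ?_
  apply pow_le_pow_left₀ (by positivity)
  have h2 : 1 ≤ 1 / δ := by rw [one_le_div hδ]; exact hδ1
  have h3 : 7 / δ = 2 * (2 / δ) + 3 * (1 / δ) := by ring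
  rw [h3]
  linarith

end Pool.Agent.H20.RK
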